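import Pool.Agent.Herst.All

set_option autoImplicit false

/-! Radical normal subgroups are central if `D` is not the additive group generated by its
additive commutators. -/

namespace Pool.Agent.Results.MP_176fb9_al.AdditiveCommutators

open Pool.Agent.Herst

universe u

/-- Let `D` be a division ring which is not generated additively by its additive commutators
`a b - b a`.  Then every normal subgroup of `D*` which is radical over the centre is central. -/
theorem result (D : Type u) [DivisionRing D]
    (hD : ∃ y : D, y ∉ AddSubgroup.closure {c : D | ∃ a b : D, c = a * b - b * a})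
    (N : Subgroup Dˣ) (hN : N.Normal)
    (hr : ∀ x ∈ N, ∃ n : ℕ, 1 ≤ n ∧ ((x : D) ^ n) ∈ Subring.center D) :
    ∀ x ∈ N, (x : D) ∈ Subring.center D := by
  by_contra hcon
  push Not at hcon
  obtain ⟨x₀, hx₀, hx₀c⟩ := hcon
  obtain ⟨y, hy⟩ := hD
  exact hy (qA D _ (Main_.rad_ext N hN hr)
    ⟨x₀, ⟨x₀.ne_zero, x₀, hx₀, 1, one_mem _, by rw [mul_one]⟩, hx₀c⟩ y)

end Pool.Agent.Results.MP_176fb9_al.AdditiveCommutators
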