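import Pool.Agent.Herst.AQ

set_option autoImplicit false

/-! Radical normal subgroups and quasimorphisms of `D*`. -/

namespace Pool.Agent.Results.MP_176fb9_al.Quasimorphism

open Pool.Agent.Herst

universe u v

/-- Let `D` be a division ring with centre `F` and `L` a function on `D*` with values in an ordered
field `k` (for instance the real numbers) such that `L (x y) - L x - L y` is bounded by `K`, and
`L (a + b) ≤ K + max (L a) (L b)` for `a`, `b`, `a + b` in `F*`.  If `L` takes values larger than
every multiple `j K`, then every normal subgroup of `D*` which is radical over `F` is central. -/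
theorem result (D : Type u) [DivisionRing D] {k : Type v} [Field k] [LinearOrder k]
    [IsStrictOrderedRing k] (L : D → k) (K : k)
    (hmul : ∀ x y : D, x ≠ 0 → y ≠ 0 → |L (x * y) - L x - L y| ≤ K)
    (hadd : ∀ a ∈ Subring.center D, ∀ b ∈ Subring.center D, a ≠ 0 → b ≠ 0 → a + b ≠ 0 →
      L (a + b) ≤ K + max (L a) (L b))
    (hunb : ∀ j : ℕ, ∃ x : D, x ≠ 0 ∧ j * K < L x)
    (N : Subgroup Dˣ) (hN : N.Normal)
    (hr : ∀ x ∈ N, ∃ n : ℕ, 1 ≤ n ∧ ((x : D) ^ n) ∈ Subring.center D) :
    ∀ x ∈ N, (x : D) ∈ Subring.center D :=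
  qAQ D L K hmul hadd hunb N hN hr

end Pool.Agent.Results.MP_176fb9_al.Quasimorphism
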