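import Pool.Agent.Herst.All2

set_option autoImplicit false

/-! Elements of radical normal subgroups whose order modulo the centre has only prime divisors `q`
such that the `q`-th roots of unity have degree at most `3` over the centre. -/

namespace Pool.Agent.Results.MP_176fb9_al.RootsOfUnity

open Pool.Agent.Herst Polynomial

universe u

/-- Let `N` be a normal subgroup of `D*` which is radical over the centre `F`, and let `x ∈ N`,
`x ^ n ∈ F`, `n ≥ 1`.  Suppose that for every prime divisor `q` of `n` either `q` is the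
characteristic of `D` or the `q`-th cyclotomic polynomial has a factor of degree `1`, `2` or `3`
over `F`.  Then `x` is central.  (The condition holds for `q = 2` and `q = 3`.) -/
theorem result (D : Type u) [DivisionRing D] (N : Subgroup Dˣ) (hN : N.Normal)
    (hr : ∀ x ∈ N, ∃ n : ℕ, 1 ≤ n ∧ ((x : D) ^ n) ∈ Subring.center D)
    (x : Dˣ) (hx : x ∈ N) (n : ℕ) (hn : 1 ≤ n) (hxn : (x : D) ^ n ∈ Subring.center D)
    (hq : ∀ q : ℕ, q.Prime → q ∣ n → (q : D) = 0 ∨
      ∃ P : (Subring.center D)[X], 0 < P.natDegree ∧ P.natDegree ≤ 3 ∧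
        P ∣ cyclotomic q (Subring.center D)) :
    (x : D) ∈ Subring.center D := by
  have hRad := Main_.rad_ext N hN hr
  have hmem : ∀ y ∈ N, (y : D) ∈ Main_.ext N := fun y hy =>
    ⟨y.ne_zero, y, hy, 1, one_mem _, by rw [mul_one]⟩
  have key : ∀ n : ℕ, 1 ≤ n → ∀ y ∈ N, ((y : D) ^ n) ∈ Subring.center D →
      (∀ q : ℕ, q.Prime → q ∣ n → (q : D) = 0 ∨
        ∃ P : (Subring.center D)[X], 0 < P.natDegree ∧ P.natDegree ≤ 3 ∧
          P ∣ cyclotomic q (Subring.center D)) → (y : D) ∈ Subring.center D := by
    intro n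
    induction n using Nat.strong_induction_on with
    | _ n ih =>
      intro hn y hy hyn h
      by_cases h1 : n = 1
      · rw [h1, pow_one] at hyn
        exact hyn
      obtain ⟨q, hqp, m, rfl⟩ := Nat.exists_prime_and_dvd h1
      have hm1 : 1 ≤ m := by
        rcases Nat.eq_zero_or_pos m with h0 | h0
        · rw [h0, mul_zero] at hn; omega
        · exact h0
      have hmlt : m < q * m := by
        calc m = 1 * m := (one_mul m).symm
          _ < q * m := Nat.mul_lt_mul_of_pos_right hqp.one_lt hm1
      have hw : ((y ^ m : Dˣ) : D) ^ q ∈ Subring.center D := by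
        rw [Units.val_pow_eq_pow_val, ← pow_mul, mul_comm m q]
        exact hyn
      have hwN := N.pow_mem hy m
      have hwc : ((y ^ m : Dˣ) : D) ∈ Subring.center D := by
        rcases h q hqp (dvd_mul_right q m) with h0 | hP
        · exact qR2 D _ hRad _ (hmem _ hwN) q hqp h0 hw
        · by_cases h0 : (q : D) = 0
          · exact qR2 D _ hRad _ (hmem _ hwN) q hqp h0 hw
          · exact qF3 D _ hRad q hqp h0 hP _ (hmem _ hwN) hw
      rw [Units.val_pow_eq_pow_val] at hwc
      exact ih m hmlt hm1 y hy hwc (fun p hp hpm => h p hp (hpm.mul_left q))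
  exact key n hn x hx hxn hq

end Pool.Agent.Results.MP_176fb9_al.RootsOfUnity
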