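import Pool.Agent.Herst.ORL

set_option autoImplicit false

/-! Radical normal subgroups of division rings which are locally division rings of fractions of
normed rings. -/

namespace Pool.Agent.Results.MP_176fb9_al.UltrametricOrders

open Pool.Agent.Herst

universe u v

/-- `E` is a division subring of `D`, the subring `A` of `E` is an order in `E` (all elements of
`E` have right and left denominators in `A`; `A = E` is allowed), and there is a submultiplicative
ultrametric norm `n` on `A` with values in a totally ordered group `Γ`, with arbitrarily small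
values, such that `1 + a` is zero or a unit of `A` if `n a` is small, and such that `n (q z)` is
not much smaller than `n z` for all primes `q` different from the characteristic. -/
def NormedOrder {D : Type u} [DivisionRing D] (E A : Subring D) : Prop :=
  (∀ z ∈ E, z⁻¹ ∈ E) ∧ A ≤ E ∧ (∀ z ∈ E, ∃ b ∈ A, b ≠ 0 ∧ z * b ∈ A) ∧
  (∀ z ∈ E, ∃ b ∈ A, b ≠ 0 ∧ b * z ∈ A) ∧
  ∃ (Γ : Type v) (_ : Group Γ) (_ : LinearOrder Γ) (_ : MulLeftMono Γ) (_ : MulRightMono Γ)
    (n : A → Γ), (∀ a b : A, a ≠ 0 → b ≠ 0 → n (a * b) ≤ n a * n b) ∧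
    (∀ a b : A, a ≠ 0 → b ≠ 0 → a + b ≠ 0 → n (a + b) ≤ max (n a) (n b)) ∧
    (∀ γ : Γ, ∃ a : A, a ≠ 0 ∧ n a < γ) ∧
    (∃ γ : Γ, ∀ a : A, n a < γ → ((1 + a : A) : D)⁻¹ ∈ A) ∧
    (∃ γ : Γ, ∀ q : ℕ, q.Prime → (q : D) ≠ 0 → ∀ z : A, z ≠ 0 →
      n z ≤ γ * n (q * z) ∧ n z ≤ n (q * z) * γ)

/-- Let `D` be a division ring in which any two elements which do not commute lie in a division
subring which has a normed order.  Then every normal subgroup of `D*` which is radical over the
centre is central. -/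
theorem result (D : Type u) [DivisionRing D]
    (h : ∀ x y : D, x * y ≠ y * x → ∃ E A : Subring D, x ∈ E ∧ y ∈ E ∧
      NormedOrder.{u, v} E A)
    (N : Subgroup Dˣ) (hN : N.Normal)
    (hr : ∀ x ∈ N, ∃ n : ℕ, 1 ≤ n ∧ ((x : D) ^ n) ∈ Subring.center D) :
    ∀ x ∈ N, (x : D) ∈ Subring.center D :=
  qORL D h N hN hr

end Pool.Agent.Results.MP_176fb9_al.UltrametricOrders
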